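import Pool.Agent.H378.RS.Nf

/-!
# Navarro's blockwise conjecture: one residue class, at one sequence of scales, decides

Let `p` be a prime, `F` an algebraically closed field of characteristic `p` and `red` a ring
homomorphism from the ring of the algebraic integers of `ℂ` to `F`. A block of `G` is given by its
central character, an `F`-algebra homomorphism `B` from the class functions `G → F` (the centre of
`F[G]`) to `F`. Notation:

* `numIBr G B = |IBr_Γ(B)|`, and `numDz p red G Q B = |dz(N_Γ(Q)/Q | B)|`;
* `InDefect p G B Q`: `Q ∩ G` is contained in a defect group of `B`;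
* `thetaSum p red G B`: the right hand side of Navarro's equality;
* `numIrrBlock B = l(B)`: the number of the irreducible characters of `H` over `F` in `B`;
* `numWts p red B = w(B)`: the number of the `H`-classes of weights of the block `B` of `H`;
* `Closed p X`: the class `X` of groups is closed under isomorphisms, subgroups and quotients by
  normal `p`-subgroups;
* `H ≀ᵣ C` (`RegularWreathProduct H C`): the wreath product of `H` with a group `C`.

Proof. Let `C` be a group of prime order `q` and `B` a block of positive defect of `G`. There is one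
block `B'` of `G ≀ C` above `B ⊗ ⋯ ⊗ B`, it has positive defect, and
`q l(B') = l(B)^q + c l(B)`, `q w(B') = w(B)^q + c w(B)` with `c = p - 1` if `q = p` and
`c = q² - 1` if `q ≠ p` (uniqueness for `q = p` and the formulas are in the library; if `q = p` the
defect of `B` may be zero). For direct powers `l`, `w` and the order of the group are multiplicative.
Let `l(B) > w(B)` and let `q` be a prime. The wreath products with `C_q` lower the `q`-adic valuation
of `l - w`, so we can assume that it is zero. Let `n = q^a (1 + (q - 1) k)`; modulo `q^(a+1)` the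
numbers `l^n`, `w^n` are the Teichmüller representatives `[l]`, `[w]`, for all `k`. For a prime
`s ≠ p`, `s ≡ 1` modulo `q - 1`, the wreath product with `C_s` makes `s [l]`, `s [w]` of them, and
finally the wreath product with `C_q` makes `((s^q + c s)/q) [l]`, `((s^q + c s)/q) [w]` modulo `q^a`.
By Hensel's lemma and Dirichlet's theorem we can choose `s` such that
`((s^q + c s)/q) ([l] - [w]) ≡ r` modulo `q^a`. The order of the group is at most
`(4 |G|)^(s q n)`, and the new numbers `l'`, `w'` satisfy `l'/w' ≥ (l/w)^n` and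
`l' - w' ≥ l^n - w^n`. The exponents `n` form an arithmetic progression, so this gives groups at all
scales.
-/

set_option autoImplicit false

open scoped Classical

noncomputable section

namespace Pool.Agent.Results.MP_0c8ca5_al.OneResidueClass

open Pool.Agent.Y63.NV (IsIrrTrace IsClassFun IsBlock IsInvBlock InDefect numIBr numDz
  numIrrBlock numWtBlock Closed)
open Pool.Agent.Y63.AWC (pSubgroupSetoid)

/-- The right hand side of Navarro's equality, the sum of `|dz(N_Γ(Q)/Q | B)|` over the `Γ`-classes
of `Θ_B`, the set of the `p`-subgroups `Q` of `Γ` with `GQ = Γ` such that `Q ∩ G` is contained in a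
defect group of `B`. -/
def thetaSum {F : Type} [Field F] {Γ : Type} [Group Γ] (p : ℕ) (red : integralClosure ℤ ℂ →+* F)
    (G : Subgroup Γ) (B : (G → F) → F) : ℕ :=
  ∑ᶠ c : Quotient (pSubgroupSetoid p Γ),
    if G ⊔ c.out.1 = ⊤ ∧ InDefect p G B c.out.1 then numDz p red G c.out.1 B else 0

/-- `w(B)`: the number of the conjugacy classes of weights of the block `B` -/
def numWts {F : Type} [Field F] {H : Type} [Group H] (p : ℕ) (red : integralClosure ℤ ℂ →+* F)
    (B : (H → F) → F) : ℕ :=
  ∑ᶠ c : Quotient (pSubgroupSetoid p H), numWtBlock p red c.out.1 B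

/-- The class `X` contains with `G` also `G ≀ C`, for all groups `C` of prime order. -/
def WreathClosed (X : ∀ (G : Type) [Group G], Prop) : Prop :=
  ∀ (q : ℕ), q.Prime → ∀ (C : Type) [Group C] [Fintype C], Nat.card C = q →
    ∀ (G : Type) [Group G] [Finite G], X G → X (RegularWreathProduct G C)

/-- `P |Γ| a b` for the two sides `a`, `b` of Navarro's equality, for all `Γ`-invariant blocks `B` of
all normal subgroups `G` of finite groups `Γ` such that `G` contains a normal subgroup `N` of `Γ` in
`X` for which `Γ/N` is a `p`-group. -/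
def ForPairs (p : ℕ) (F : Type) [Field F] (red : integralClosure ℤ ℂ →+* F)
    (X : ∀ (G : Type) [Group G], Prop) (P : ℕ → ℕ → ℕ → Prop) : Prop :=
  ∀ (Γ : Type) [Group Γ] [Finite Γ] (N G : Subgroup Γ) [N.Normal] [G.Normal], N ≤ G → X N →
    IsPGroup p (Γ ⧸ N) → ∀ B : (G → F) → F, IsBlock B → IsInvBlock G B →
      P (Nat.card Γ) (numIBr G B) (thetaSum p red G B)

/-- `P |H| l(B) w(B)` for all blocks `B` of all finite groups `H` in `X`. -/
def ForBlocks (p : ℕ) (F : Type) [Field F] (red : integralClosure ℤ ℂ →+* F)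
    (X : ∀ (G : Type) [Group G], Prop) (P : ℕ → ℕ → ℕ → Prop) : Prop :=
  ∀ (H : Type) [Group H] [Finite H], X H → ∀ B : (H → F) → F, IsBlock B →
    P (Nat.card H) (numIrrBlock B) (numWts p red B)

/-- The numbers `a`, `b` agree up to the factor `t`, or they differ by at most `t`. -/
def Close (t : ℝ) (a b : ℕ) : Prop := ((a : ℝ) ≤ t * b ∧ (b : ℝ) ≤ t * a) ∨ |(a : ℝ) - b| ≤ t

/-- If `n₀ ≤ g ≤ x` and `a - b ≡ r` modulo `m`, then `a` and `b` are close up to `x ^ ε`. -/
def CloseIn (n₀ : ℕ) (m r : ℤ) (x ε : ℝ) (g a b : ℕ) : Prop :=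
  n₀ ≤ g → (g : ℝ) ≤ x → m ∣ ((a : ℤ) - b) - r → Close (x ^ ε) a b

/-- **Navarro's conjecture: one residue class decides.** Let `X` be a class of groups closed under
isomorphisms, subgroups, quotients by normal `p`-subgroups and under `G ↦ G ≀ C` for all groups `C` of
prime order (for example the class of all groups). Let `q^a` be a power of a prime `q` (`q = p` is
allowed), `r` an integer and `n₀` a natural number.

(1) The following are equivalent: Navarro's equality for all pairs and blocks as in `ForPairs`; for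
every `ε > 0` there are arbitrarily large `x` such that the two sides are close up to `x ^ ε` for all
these pairs and blocks with `n₀ ≤ |Γ| ≤ x` for which the difference of the two sides is congruent to
`r` modulo `q^a`; the same for the numbers `l(B)`, `w(B)` for all blocks of the groups `H` in `X`.

(2) If `q^a` does not divide `r`, Navarro's equality for all pairs and blocks as in `ForPairs` is
equivalent to: `l(B) - w(B)` is not congruent to `r` modulo `q^a` for any block `B` of a group `H` in
`X` with `|H| ≥ n₀`.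

(3) If Navarro's equality fails for a pair and a block as in `ForPairs`, there is `δ > 0` such that one
of the following holds: for all large `x` and ALL integers `r` there is a block `B` of a group `H` in
`X` with `n₀ ≤ |H| ≤ x`, `l(B) - w(B) ≡ r` modulo `q^a`, `l(B) ≥ x ^ δ w(B)` and
`l(B) - w(B) ≥ x ^ δ`; or the same with `w(B) ≥ x ^ δ l(B)` and `w(B) - l(B) ≥ x ^ δ`. -/
theorem result (p : ℕ) [Fact p.Prime] (F : Type) [Field F] [IsAlgClosed F] [CharP F p]
    (red : integralClosure ℤ ℂ →+* F) (X : ∀ (G : Type) [Group G], Prop) (hX : Closed p X)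
    (hW : WreathClosed X) (q : ℕ) (hq : q.Prime) (a n₀ : ℕ) :
    (∀ r : ℤ, List.TFAE [
      ForPairs p F red X (fun _ x y => x = y),
      ∀ ε : ℝ, 0 < ε → ∀ x₀ : ℝ, ∃ x : ℝ, x₀ ≤ x ∧
        ForPairs p F red X (CloseIn n₀ ((q : ℤ) ^ a) r x ε),
      ∀ ε : ℝ, 0 < ε → ∀ x₀ : ℝ, ∃ x : ℝ, x₀ ≤ x ∧
        ForBlocks p F red X (CloseIn n₀ ((q : ℤ) ^ a) r x ε)]) ∧
    (∀ r : ℤ, ¬ (q : ℤ) ^ a ∣ r → (ForPairs p F red X (fun _ x y => x = y) ↔
      ForBlocks p F red X (fun g l w => n₀ ≤ g → ¬ (q : ℤ) ^ a ∣ ((l : ℤ) - w) - r))) ∧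
    (¬ ForPairs p F red X (fun _ x y => x = y) → ∃ δ : ℝ, 0 < δ ∧ ∃ x₀ : ℝ,
      (∀ x : ℝ, x₀ ≤ x → ∀ r : ℤ, ∃ (H : Type) (_ : Group H) (_ : Finite H) (B : (H → F) → F),
        X H ∧ IsBlock B ∧ n₀ ≤ Nat.card H ∧ (Nat.card H : ℝ) ≤ x ∧
        (q : ℤ) ^ a ∣ ((numIrrBlock B : ℤ) - numWts p red B) - r ∧
        x ^ δ * numWts p red B ≤ numIrrBlock B ∧
        x ^ δ ≤ (numIrrBlock B : ℝ) - numWts p red B) ∨
      (∀ x : ℝ, x₀ ≤ x → ∀ r : ℤ, ∃ (H : Type) (_ : Group H) (_ : Finite H) (B : (H → F) → F),
        X H ∧ IsBlock B ∧ n₀ ≤ Nat.card H ∧ (Nat.card H : ℝ) ≤ x ∧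
        (q : ℤ) ^ a ∣ ((numIrrBlock B : ℤ) - numWts p red B) - r ∧
        x ^ δ * numIrrBlock B ≤ numWts p red B ∧
        x ^ δ ≤ (numWts p red B : ℝ) - numIrrBlock B)) :=
  ⟨fun r => Pool.Agent.H378.RS.nav_res (p := p) red hX hW hq a n₀ r,
    fun _ hr => Pool.Agent.H378.RS.nav_forb (p := p) red hX hW hq a n₀ hr,
    fun h => Pool.Agent.H378.RS.nav_all (p := p) red hX hW hq a n₀ h⟩

end Pool.Agent.Results.MP_0c8ca5_al.OneResidueClass
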